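import Pool.Agent.Helper16.HR.Stmts

/-! CU: the uniform part is negligible. -/

set_option autoImplicit false

namespace Pool.Helper16.HR

open Finset

theorem st_CU : ST_CU := by
  intro I V _ _ _ _ L rk hLat c hc col T hT S hS hTS W hW hWT g u η hgS hg01 huT hdisc
  classical
  rw [av_mix T]
  refine le_trans (abs_av_le _) ?_
  rw [← av_const (I := I) (V := V) η]
  refine av_mono fun w => ?_
  have hmem : ∀ T' ∈ L, ¬ T ⊆ T' → T' ∩ T ∈ below L T := by
    intro T' hT' hn
    rw [mem_below]
    refine ⟨hLat.inter T' hT' T hT, inter_subset_right, ?_⟩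
    intro h
    exact hn fun i hi => (mem_inter.1 (h hi)).1
  have hpw : ∀ (T' U : Finset I), T' ∩ T = U → ∀ x y : I → V, (∀ i ∈ U, x i = y i) →
      ∀ i ∈ T', T.piecewise x w i = T.piecewise y w i := by
    intro T' U hU x y hxy i hi
    by_cases hiT : i ∈ T
    · rw [piecewise_eq_of_mem _ _ _ hiT, piecewise_eq_of_mem _ _ _ hiT]
      exact hxy i (hU ▸ mem_inter.2 ⟨hi, hiT⟩)
    · rw [piecewise_eq_of_notMem _ _ _ hiT, piecewise_eq_of_notMem _ _ _ hiT]
  have key : ∀ x, u (T.piecewise x w) * (g (T.piecewise x w) *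
      ∏ T' ∈ W, ind c T' (col T') (T.piecewise x w)) = u x * ∏ U ∈ below L T,
      ((if S ∩ T = U then g (T.piecewise x w) else 1) *
        ∏ T' ∈ W with T' ∩ T = U, ind c T' (col T') (T.piecewise x w)) := by
    intro x
    rw [huT (T.piecewise x w) x (fun i hi => piecewise_eq_of_mem _ _ _ hi), prod_mul_distrib,
      prod_ite_eq, if_pos (hmem S hS hTS),
      prod_fiberwise_of_maps_to (fun T' hT' => hmem T' (hW hT') (hWT T' hT'))]
  rw [av_congr key]
  refine hdisc (fun U x => (if S ∩ T = U then g (T.piecewise x w) else 1) *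
        ∏ T' ∈ W with T' ∩ T = U, ind c T' (col T') (T.piecewise x w)) fun U hU =>
          ⟨?_, fun x => ?_⟩
  · intro x y hxy
    have h1 : (if S ∩ T = U then g (T.piecewise x w) else 1) =
        (if S ∩ T = U then g (T.piecewise y w) else 1) := by
      split_ifs with h
      · exact hgS _ _ (hpw S U h x y hxy)
      · rfl
    have h2 : ∏ T' ∈ W with T' ∩ T = U, ind c T' (col T') (T.piecewise x w) =
        ∏ T' ∈ W with T' ∩ T = U, ind c T' (col T') (T.piecewise y w) := by
      refine prod_congr rfl fun T' hT' => ?_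
      rw [mem_filter] at hT'
      exact ind_dep (hc T' (hW hT'.1)) (col T') _ _ (hpw T' U hT'.2 x y hxy)
    simp only [h1, h2]
  · have h1 : 0 ≤ (if S ∩ T = U then g (T.piecewise x w) else 1) ∧
        (if S ∩ T = U then g (T.piecewise x w) else 1) ≤ 1 := by
      split_ifs
      · exact hg01 _
      · exact ⟨zero_le_one, le_refl _⟩
    have h2 : 0 ≤ ∏ T' ∈ W with T' ∩ T = U, ind c T' (col T') (T.piecewise x w) :=
      prod_nonneg fun T' _ => ind_nonneg _ _
    have h3 : ∏ T' ∈ W with T' ∩ T = U, ind c T' (col T') (T.piecewise x w) ≤ 1 :=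
      prod_le_one (fun T' _ => ind_nonneg _ _) fun T' _ => ind_le_one _ _
    exact ⟨mul_nonneg h1.1 h2, mul_le_one₀ h1.2 h2 h3⟩

end Pool.Helper16.HR
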