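import Pool.Agent.Helper16.HR.Stmts

/-! BAD: there are few bad points. -/

set_option autoImplicit false

namespace Pool.Helper16.HR

open Finset

theorem st_BAD : ST_BAD := by
  classical
  intro I V _ _ _ _ L c hc T hT M hM D β γ δ hγ hδ hD
  refine ⟨?_, ?_⟩
  · intro x y hxy
    unfold BadPt
    rw [hc T hT x y hxy, ce_dep hc (ind c T (c T y)) x y hxy, cls_dep hc x y hxy]
  · have h1 : ∀ x, (if BadPt L c T D δ γ x then (1 : ℝ) else 0) ≤
        ∑ a ∈ range M, (ind c T a x * (if ce L c T (ind c T a) x < δ then (1 : ℝ) else 0) +
          ce L c T (fun y => (D a y - ce L c T (ind c T a) y) ^ 2) x * (1 / γ ^ 2)) := by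
      intro x
      have hn : ∀ a ∈ range M, 0 ≤ ind c T a x *
          (if ce L c T (ind c T a) x < δ then (1 : ℝ) else 0) +
          ce L c T (fun y => (D a y - ce L c T (ind c T a) y) ^ 2) x * (1 / γ ^ 2) := by
        intro a _
        refine add_nonneg (mul_nonneg (ind_nonneg _ _) (by split_ifs <;> norm_num))
          (mul_nonneg (ce_nonneg (fun y => sq_nonneg _) x) (by positivity))
      refine le_trans ?_ (single_le_sum hn (mem_range.2 (hM x)))
      have h2 : 0 ≤ ce L c T (fun y => (D (c T x) y - ce L c T (ind c T (c T x)) y) ^ 2) x *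
          (1 / γ ^ 2) := mul_nonneg (ce_nonneg (fun y => sq_nonneg _) x) (by positivity)
      have h3 : ind c T (c T x) x = 1 := by
        unfold ind
        rw [if_pos rfl]
      rw [h3, one_mul]
      split_ifs with hb hl hl
      · linarith
      · have h4 : γ ^ 2 * ((cls L c T x).card : ℝ) <
            ∑ y ∈ cls L c T x, (D (c T x) y - ce L c T (ind c T (c T x)) y) ^ 2 := by
          rcases hb with hb | hb
          · exact absurd hb hl
          · refine lt_of_lt_of_eq hb (sum_congr rfl fun y hy => ?_)
            rw [ce_eq _ hy]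
        have h5 : 1 ≤ ce L c T (fun y => (D (c T x) y - ce L c T (ind c T (c T x)) y) ^ 2) x *
            (1 / γ ^ 2) := by
          unfold ce at h4 ⊢
          rw [mul_one_div, div_div, le_div_iff₀ (mul_pos (cls_card_pos x) (by positivity))]
          linarith
        linarith
      · linarith
      · linarith
    have h2 : ∀ a ∈ range M, av (fun x => ind c T a x *
        (if ce L c T (ind c T a) x < δ then (1 : ℝ) else 0) +
        ce L c T (fun y => (D a y - ce L c T (ind c T a) y) ^ 2) x * (1 / γ ^ 2)) ≤
        δ + β / γ ^ 2 := by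
      intro a _
      rw [av_add, av_mul_right]
      have h3 : av (ce L c T (fun y => (D a y - ce L c T (ind c T a) y) ^ 2)) =
          av (fun y => (D a y - ce L c T (ind c T a) y) ^ 2) := av_ce _
      have h4 : av (fun x => ind c T a x *
          (if ce L c T (ind c T a) x < δ then (1 : ℝ) else 0)) ≤ δ := by
        rw [← av_ce_mul (L := L) (c := c) (T := T) (f := ind c T a)
          (φ := fun x => if ce L c T (ind c T a) x < δ then (1 : ℝ) else 0)
          (fun x y hy => by rw [ce_eq _ hy])]
        refine le_trans (av_mono (g := fun _ => δ) fun x => ?_) (le_of_eq (av_const δ))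
        have h5 := ce_nonneg (L := L) (c := c) (T := T) (ind_nonneg (c := c) (T := T) a) x
        split_ifs with h6
        · linarith
        · linarith
      have h5 : av (fun x => ce L c T (fun y => (D a y - ce L c T (ind c T a) y) ^ 2) x) *
          (1 / γ ^ 2) ≤ β / γ ^ 2 := by
        rw [mul_one_div]
        refine div_le_div_of_nonneg_right ?_ (by positivity)
        exact le_trans (le_of_eq h3) (hD a)
      linarith
    calc av (fun x => if BadPt L c T D δ γ x then (1 : ℝ) else 0) ≤ _ := av_mono h1
      _ = _ := av_sum (range M) (fun a x => ind c T a x *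
        (if ce L c T (ind c T a) x < δ then (1 : ℝ) else 0) +
        ce L c T (fun y => (D a y - ce L c T (ind c T a) y) ^ 2) x * (1 / γ ^ 2))
      _ ≤ ∑ a ∈ range M, (δ + β / γ ^ 2) := sum_le_sum h2
      _ = M * δ + M * (β / γ ^ 2) := by
        rw [sum_const, card_range, nsmul_eq_mul]
        ring

end Pool.Helper16.HR
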