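import Pool.Agent.Helper16.HR.Stmts

/-! CB: from `L²` to `L¹` on a class. -/

set_option autoImplicit false

namespace Pool.Helper16.HR

open Finset

theorem st_CB : ST_CB := by
  classical
  intro I V _ _ _ _ L c T x0 f γ hγ h
  have hprod : ∀ x : I → V, ∏ U ∈ below L T, ind c U (c U x0) x =
      if x ∈ cls L c T x0 then (1 : ℝ) else 0 := by
    intro x
    by_cases hx : x ∈ cls L c T x0
    · rw [if_pos hx]
      refine prod_eq_one fun U hU => ?_
      unfold ind
      rw [if_pos (mem_cls.1 hx U hU)]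
    · rw [if_neg hx]
      rw [mem_cls] at hx
      push Not at hx
      obtain ⟨U, hU, hne⟩ := hx
      refine prod_eq_zero hU ?_
      unfold ind
      rw [if_neg hne]
  have h1 : av (fun x => |f x| * ∏ U ∈ below L T, ind c U (c U x0) x) =
      (∑ y ∈ cls L c T x0, |f y|) / (Fintype.card (I → V) : ℝ) := by
    unfold av
    congr 1
    simp only [hprod, mul_ite, mul_one, mul_zero]
    rw [← sum_filter]
    refine sum_congr ?_ fun _ _ => rfl
    ext x
    simp
  have h2 : av (fun x => ∏ U ∈ below L T, ind c U (c U x0) x) =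
      ((cls L c T x0).card : ℝ) / (Fintype.card (I → V) : ℝ) := by
    unfold av
    congr 1
    rw [sum_congr rfl fun x _ => hprod x, ← sum_filter, sum_const, nsmul_eq_mul, mul_one]
    congr 2
    ext x
    simp
  rw [h1, h2, ← mul_div_assoc]
  refine div_le_div_of_nonneg_right ?_ (Nat.cast_nonneg _)
  refine le_of_sq_le_sq ?_ (mul_nonneg hγ (Nat.cast_nonneg _))
  have h3 : (∑ y ∈ cls L c T x0, |f y|) ^ 2 ≤
      ((cls L c T x0).card : ℝ) * ∑ y ∈ cls L c T x0, |f y| ^ 2 := sq_sum_le_card_mul_sum_sq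
  simp only [sq_abs] at h3
  calc (∑ y ∈ cls L c T x0, |f y|) ^ 2 ≤ _ := h3
    _ ≤ ((cls L c T x0).card : ℝ) * (γ ^ 2 * ((cls L c T x0).card : ℝ)) :=
      mul_le_mul_of_nonneg_left h (Nat.cast_nonneg _)
    _ = (γ * ((cls L c T x0).card : ℝ)) ^ 2 := by ring

end Pool.Helper16.HR
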