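import Pool.Agent.Helper16.HR.Stmts

/-! IMG: the number of images of an edge. -/

set_option autoImplicit false

namespace Pool.Helper16.HR

open Finset

theorem st_IMG : ST_IMG := by
  classical
  intro h n e Z hZ
  by_cases hne : Nonempty (Fin h → Fin n)
  · have hch : ∀ g : Finset (Fin n), ∃ x : Fin h → Fin n,
        g ∈ ((univ : Finset (Fin h → Fin n)).filter (fun x => Z x)).image (fun x => e.image x) →
          Z x ∧ e.image x = g := by
      intro g
      by_cases hg : g ∈ ((univ : Finset (Fin h → Fin n)).filter (fun x => Z x)).image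
          (fun x => e.image x)
      · obtain ⟨x, hx, hxg⟩ := mem_image.1 hg
        exact ⟨x, fun _ => ⟨(mem_filter.1 hx).2, hxg⟩⟩
      · exact ⟨hne.some, fun h1 => absurd h1 hg⟩
    choose X hX using hch
    have h1 : ((((univ : Finset (Fin h → Fin n)).filter (fun x => Z x)).image
        (fun x => e.image x)) ×ˢ (univ : Finset (Fin h → Fin n))).card ≤
        ((univ : Finset (e → Fin n)) ×ˢ
          ((univ : Finset (Fin h → Fin n)).filter (fun x => Z x))).card := by
      refine card_le_card_of_injOn
        (fun p => ((fun i : e => p.2 i), e.piecewise (X p.1) p.2)) ?_ ?_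
      · intro p hp
        have hp1 := (mem_product.1 (mem_coe.1 hp)).1
        refine mem_coe.2 (mem_product.2 ⟨mem_univ _, mem_filter.2 ⟨mem_univ _, ?_⟩⟩)
        have h2 := hZ (e.piecewise (X p.1) p.2) (X p.1)
          (fun i hi => piecewise_eq_of_mem _ _ _ hi)
        simp only
        rw [h2]
        exact (hX p.1 hp1).1
      · intro p hp p' hp' heq
        have hp1 := (mem_product.1 (mem_coe.1 hp)).1
        have hp1' := (mem_product.1 (mem_coe.1 hp')).1
        have h2 := (Prod.mk.inj heq).1
        have h3 := (Prod.mk.inj heq).2
        have himg : ∀ q : Finset (Fin n) × (Fin h → Fin n),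
            e.image (e.piecewise (X q.1) q.2) = e.image (X q.1) := fun q =>
          image_congr fun i hi => piecewise_eq_of_mem _ _ _ hi
        refine Prod.ext ?_ ?_
        · rw [← (hX p.1 hp1).2, ← (hX p'.1 hp1').2, ← himg p, ← himg p', h3]
        · funext i
          by_cases hi : i ∈ e
          · exact congrFun h2 ⟨i, hi⟩
          · have h4 := congrFun h3 i
            rwa [piecewise_eq_of_notMem _ _ _ hi, piecewise_eq_of_notMem _ _ _ hi] at h4
    rw [card_product, card_product, card_univ, card_univ, Fintype.card_fun, Fintype.card_fun,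
      Fintype.card_fin, Fintype.card_fin, Fintype.card_coe] at h1
    exact h1
  · have h0 : (univ : Finset (Fin h → Fin n)) = ∅ := by
      rw [← card_eq_zero, card_univ, Fintype.card_eq_zero_iff]
      exact not_nonempty_iff.1 hne
    rw [h0]
    simp

end Pool.Helper16.HR
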